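import Pool.Agent.Lead.Gro3

namespace Pool.Agent.Results.MP_8a2df8_gt.Q1

open Pool.Agent.Lead.Gro

theorem result : ∀ (X K : Type) [TopologicalSpace X] [T35Space X] [TopologicalSpace K]
    [CompactSpace K] [T2Space K], Groth X → Groth (X × K) :=
  fun _ _ _ _ _ _ _ h => groth_iff.2 (groth_prod (groth_iff.1 h))

end Pool.Agent.Results.MP_8a2df8_gt.Q1
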